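import Pool.Agent.Run7.h894.MD.Sh

set_option autoImplicit false

/-! Project MD (helper473), piece SHI: a smoothed sum through a shift of a line of integration with
the kernel `Γ` and a pole at `1`. -/

namespace Pool.Agent.Run7.h327.MD

open Complex Filter Topology MeasureTheory Set
open Pool.Agent Pool.Agent.Run7.h894.MD

/-- decay of `Γ` in the strip `a ≤ Re u ≤ b` -/
lemma gamma_strip {a b : ℝ} (ha : 0 < a) (hab : a ≤ b) : ∃ C : ℝ, 0 < C ∧ ∀ u : ℂ, a ≤ u.re → u.re ≤ b →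
    ‖Complex.Gamma u‖ ≤ C * Real.exp (-(5 / 4) * |u.im|) := by
  have hpi := Real.pi_gt_three
  have hθ : (5 / 4 : ℝ) < Real.pi / 2 := by linarith
  have hc : 0 < Real.cos (5 / 4) := Real.cos_pos_of_mem_Ioo ⟨by linarith, hθ⟩
  have hcont : ContinuousOn Real.Gamma (Icc a b) := by
    intro x hx
    refine (Real.differentiableAt_Gamma fun m => ?_).continuousAt.continuousWithinAt
    have h1 : (0 : ℝ) < x := by linarith [hx.1]
    have h2 : (0 : ℝ) ≤ m := Nat.cast_nonneg m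
    intro h
    linarith
  obtain ⟨B, hB⟩ := (isCompact_Icc (a := a) (b := b)).exists_bound_of_continuousOn hcont
  have hB0 : 0 ≤ B := (norm_nonneg _).trans (hB a ⟨le_rfl, hab⟩)
  refine ⟨B / Real.cos (5 / 4) ^ b + 1, by positivity, fun u h1 h2 => ?_⟩
  have hu0 : 0 < u.re := by linarith
  have h3 := Pool.Agent.Helper242.KK.norm_Gamma_le_of_angle (σ := u.re) (v := u.im) (θ := 5 / 4) hu0
    (by norm_num) hθ
  rw [Complex.re_add_im] at h3
  refine h3.trans ?_
  have h4 : Real.Gamma u.re ≤ B := (le_abs_self _).trans (hB u.re ⟨h1, h2⟩)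
  have h5 : Real.cos (5 / 4) ^ b ≤ Real.cos (5 / 4) ^ u.re :=
    Real.rpow_le_rpow_of_exponent_ge hc (Real.cos_le_one _) h2
  have h6 : 0 < Real.cos (5 / 4) ^ b := by positivity
  have h7 : Real.Gamma u.re / Real.cos (5 / 4) ^ u.re ≤ B / Real.cos (5 / 4) ^ b :=
    div_le_div₀ hB0 h4 h6 h5
  calc Real.exp (-(5 / 4) * |u.im|) * Real.Gamma u.re / Real.cos (5 / 4) ^ u.re =
        Real.Gamma u.re / Real.cos (5 / 4) ^ u.re * Real.exp (-(5 / 4) * |u.im|) := by ring
    _ ≤ (B / Real.cos (5 / 4) ^ b + 1) * Real.exp (-(5 / 4) * |u.im|) :=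
        mul_le_mul_of_nonneg_right (by linarith) (Real.exp_pos _).le

lemma poly_exp (N : ℕ) {x : ℝ} (hx : 0 ≤ x) : (1 + x) ^ N * Real.exp (-(5 / 4) * x) ≤
    (4 ^ N * N.factorial * Real.exp (1 / 4)) * Real.exp (-x) := by
  have h1 := Real.pow_div_factorial_le_exp (x := (1 + x) / 4) (by positivity) N
  have hf : (0 : ℝ) < N.factorial := by exact_mod_cast Nat.factorial_pos N
  have h2 : (1 + x) ^ N ≤ 4 ^ N * N.factorial * (Real.exp (1 / 4) * Real.exp (x / 4)) := by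
    rw [div_le_iff₀ hf, div_pow, div_le_iff₀ (by positivity)] at h1
    have h3 : Real.exp ((1 + x) / 4) = Real.exp (1 / 4) * Real.exp (x / 4) := by
      rw [← Real.exp_add]
      congr 1
      ring
    rw [h3] at h1
    calc (1 + x) ^ N ≤ Real.exp (1 / 4) * Real.exp (x / 4) * N.factorial * 4 ^ N := h1
      _ = _ := by ring
  have h3 : Real.exp (-x) = Real.exp (x / 4) * Real.exp (-(5 / 4) * x) := by
    rw [← Real.exp_add]
    congr 1
    ring
  rw [h3]
  calc (1 + x) ^ N * Real.exp (-(5 / 4) * x) ≤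
      4 ^ N * N.factorial * (Real.exp (1 / 4) * Real.exp (x / 4)) * Real.exp (-(5 / 4) * x) :=
        mul_le_mul_of_nonneg_right h2 (Real.exp_pos _).le
    _ = _ := by ring

lemma diff_Gamma {u : ℂ} (hu : 0 < u.re) : DifferentiableAt ℂ Complex.Gamma u := by
  apply Complex.differentiableAt_Gamma
  intro m hm
  rw [hm] at hu
  simp at hu
  have h2 : (0 : ℝ) ≤ m := Nat.cast_nonneg m
  linarith

/-- `X^w Γ(w)` is integrable on the lines `Re w = c > 0` -/
lemma XG_int {c X : ℝ} (hc : 0 < c) (hX : 1 ≤ X) :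
    Integrable (fun t : ℝ => (X : ℂ) ^ ((c : ℂ) + t * I) * Complex.Gamma ((c : ℂ) + t * I)) := by
  obtain ⟨C, hC0, hC⟩ := gamma_strip hc le_rfl
  have hXn : (X : ℂ) ≠ 0 := by
    have : X ≠ 0 := by linarith
    exact_mod_cast this
  refine vert_integrable (H := fun w => (X : ℂ) ^ w * Complex.Gamma w) (c := c) (K := X ^ c * C) ?_ ?_
  · intro z hz
    exact (differentiableAt_id.const_cpow (Or.inl hXn)).mul (diff_Gamma (by rw [hz]; exact hc))
  · intro z hz _
    have h1 := hC z hz.ge hz.le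
    have h2 : Real.exp (-(5 / 4) * |z.im|) ≤ Real.exp (-|z.im|) := by
      apply Real.exp_le_exp.2
      have := abs_nonneg z.im
      linarith
    rw [norm_mul, norm_Ypow hX, hz, mul_assoc]
    exact mul_le_mul_of_nonneg_left (h1.trans (mul_le_mul_of_nonneg_left h2 hC0.le)) (by positivity)

/-- Cahen-Mellin -/
lemma mb {c Y ω : ℝ} (hc : 0 < c) (hω : 0 < ω) (hY : Y = ω⁻¹) :
    ∫ t : ℝ, (Y : ℂ) ^ ((c : ℂ) + t * I) * Complex.Gamma ((c : ℂ) + t * I) =
      2 * Real.pi * ((Real.exp (-ω) : ℝ) : ℂ) := by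
  have h := H402R2.T4b.cahen (ω := (ω : ℂ)) (by simpa using hω) (c := c) hc
  rw [Complex.ofReal_exp, Complex.ofReal_neg, ← h, hY]
  simp

lemma ncast_cpow {n : ℕ} (hn : 0 < n) {X : ℝ} (hX : 1 ≤ X) (u : ℂ) :
    (n : ℂ) ^ (-u) * (X : ℂ) ^ u = ((X * (n : ℝ)⁻¹ : ℝ) : ℂ) ^ u := by
  rw [Complex.ofReal_mul, Complex.mul_cpow_ofReal_nonneg (by linarith) (by positivity), mul_comm]
  congr 1
  rw [Complex.ofReal_inv, Complex.ofReal_natCast, Complex.inv_cpow, Complex.cpow_neg]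
  rw [Complex.natCast_arg]
  exact Real.pi_ne_zero.symm

/-- the smoothed sum as an integral on the line `Re w = W` -/
theorem sum_int {a : ℕ → ℂ} {W X : ℝ} (ha0 : a 0 = 0) (hW : 0 < W) (hX : 1 ≤ X)
    (hs : Summable (fun d : ℕ => ‖a d‖ * (d : ℝ) ^ (-W))) :
    ∫ t : ℝ, (∑' d : ℕ, a d * (d : ℂ) ^ (-((W : ℂ) + t * I))) *
      ((X : ℂ) ^ ((W : ℂ) + t * I) * Complex.Gamma ((W : ℂ) + t * I)) =
      2 * Real.pi * ∑' d : ℕ, a d * ((Real.exp (-(d / X)) : ℝ) : ℂ) := by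
  have hX0 : 0 < X := by linarith
  set G : ℝ → ℂ := fun t => (X : ℂ) ^ ((W : ℂ) + t * I) * Complex.Gamma ((W : ℂ) + t * I) with hG
  have hGi : Integrable G := XG_int hW hX
  set F : ℕ → ℝ → ℂ := fun n t => a n * (n : ℂ) ^ (-((W : ℂ) + t * I)) * G t with hF
  have hnorm : ∀ (n : ℕ) (t : ℝ), ‖F n t‖ = (‖a n‖ * (n : ℝ) ^ (-W)) * ‖G t‖ := by
    intro n t
    rcases Nat.eq_zero_or_pos n with h | h
    · subst h
      simp [hF, ha0]
    · have e1 : ‖(n : ℂ) ^ (-((W : ℂ) + t * I))‖ = (n : ℝ) ^ (-W) := by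
        rw [Complex.norm_natCast_cpow_of_pos h]
        simp
      simp only [hF]
      rw [norm_mul, norm_mul, e1]
  have hFint : ∀ n, Integrable (F n) := by
    intro n
    refine Integrable.mono' (hGi.norm.const_mul (‖a n‖ * (n : ℝ) ^ (-W))) ?_
      (Eventually.of_forall fun t => (hnorm n t).le)
    rcases Nat.eq_zero_or_pos n with h | h
    · subst h
      simp only [hF, ha0, zero_mul]
      exact aestronglyMeasurable_const
    · refine AEStronglyMeasurable.mul ?_ hGi.aestronglyMeasurable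
      refine Continuous.aestronglyMeasurable (continuous_const.mul ?_)
      exact Continuous.const_cpow (by fun_prop) (Or.inl (by exact_mod_cast h.ne'))
  have hsum : Summable fun n => ∫ t, ‖F n t‖ := by
    simp only [hnorm]
    simp only [integral_const_mul]
    exact hs.mul_right _
  have key := (hasSum_integral_of_summable_integral_norm hFint hsum).tsum_eq
  have h1 : (fun t : ℝ => ∑' n, F n t) = fun t : ℝ =>
      (∑' d : ℕ, a d * (d : ℂ) ^ (-((W : ℂ) + t * I))) * G t := by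
    funext t
    simp only [hF]
    rw [tsum_mul_right]
  rw [h1] at key
  rw [← key, ← tsum_mul_left]
  congr 1
  funext n
  rcases Nat.eq_zero_or_pos n with h | h
  · subst h
    simp [hF, ha0]
  have e1 : ∀ t : ℝ, F n t = a n * (((X * (n : ℝ)⁻¹ : ℝ) : ℂ) ^ ((W : ℂ) + t * I) *
      Complex.Gamma ((W : ℂ) + t * I)) := by
    intro t
    simp only [hF, hG]
    rw [← ncast_cpow h hX]
    ring
  simp only [e1]
  have hn0 : (0 : ℝ) < n := by exact_mod_cast h
  rw [integral_const_mul, mb (ω := n / X) hW (by positivity) (by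
    rw [inv_div, div_eq_mul_inv])]
  ring

/-- SHI: the body of `S_SHI` -/
theorem shi (a : ℕ → ℂ) (W α α' W' : ℝ) (H : ℂ → ℂ) (ha0 : a 0 = 0) (hα' : 0 < α') (hαα : α' < α)
    (hα1 : α < 1) (hW1 : 1 < W) (hWW : W < W')
    (hs : Summable (fun d : ℕ => ‖a d‖ * (d : ℝ) ^ (-W)))
    (hH : DifferentiableOn ℂ H {w | α' < w.re ∧ w.re < W'})
    (hb : ∃ (C : ℝ) (N : ℕ), ∀ w : ℂ, α ≤ w.re → w.re ≤ W → ‖H w‖ ≤ C * (1 + |w.im|) ^ N)
    (hD : ∀ w : ℂ, w.re = W → H w = (w - 1) * ∑' d : ℕ, a d * (d : ℂ) ^ (-w)) :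
    ∃ C : ℝ, ∀ X : ℝ, 1 ≤ X →
      ‖∑' d : ℕ, a d * ((Real.exp (-(d / X)) : ℝ) : ℂ) - H 1 * X‖ ≤ C * X ^ α := by
  obtain ⟨C, N, hC⟩ := hb
  obtain ⟨Cg, hCg0, hCg⟩ := gamma_strip (a := α) (b := W) (by linarith) (by linarith)
  set S : Set ℂ := {w | α' < w.re ∧ w.re < W'} with hS
  have hSo : IsOpen S :=
    (isOpen_lt continuous_const Complex.continuous_re).inter
      (isOpen_lt Complex.continuous_re continuous_const)
  have h1S : (1 : ℂ) ∈ S := by
    rw [hS]
    refine ⟨?_, ?_⟩ <;> rw [Complex.one_re] <;> linarith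
  have hdS : DifferentiableOn ℂ (dslope H 1) S :=
    (Complex.differentiableOn_dslope (hSo.mem_nhds h1S)).2 hH
  have hgd : ∀ z : ℂ, α ≤ z.re → z.re ≤ W → DifferentiableAt ℂ (dslope H 1) z := fun z h1 h2 =>
    hdS.differentiableAt (hSo.mem_nhds ⟨by linarith, by linarith⟩)
  have hC0 : 0 ≤ C := by
    have h := hC 1 (by rw [Complex.one_re]; linarith) (by rw [Complex.one_re]; linarith)
    rw [Complex.one_im, abs_zero, add_zero, one_pow, mul_one] at h
    exact (norm_nonneg _).trans h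
  have hgb : ∀ z : ℂ, α ≤ z.re → z.re ≤ W → 1 ≤ |z.im| →
      ‖dslope H 1 z‖ ≤ (C + ‖H 1‖) * (1 + |z.im|) ^ N := by
    intro z h1 h2 h3
    have hz1 : z ≠ 1 := by
      rintro rfl
      rw [Complex.one_im, abs_zero] at h3
      linarith
    rw [dslope_of_ne _ hz1, slope_def_field, norm_div]
    have h4 : 1 ≤ ‖z - 1‖ := by
      have := Complex.abs_im_le_norm (z - 1)
      rw [Complex.sub_im, Complex.one_im, sub_zero] at this
      linarith
    have h5 : (1 : ℝ) ≤ (1 + |z.im|) ^ N := one_le_pow₀ (by linarith [abs_nonneg z.im])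
    calc ‖H z - H 1‖ / ‖z - 1‖ ≤ ‖H z - H 1‖ := div_le_self (norm_nonneg _) h4
      _ ≤ ‖H z‖ + ‖H 1‖ := norm_sub_le _ _
      _ ≤ C * (1 + |z.im|) ^ N + ‖H 1‖ * (1 + |z.im|) ^ N :=
        add_le_add (hC z h1 h2) (le_mul_of_one_le_right (norm_nonneg _) h5)
      _ = _ := by ring
  set K0 : ℝ := (C + ‖H 1‖) * Cg * (4 ^ N * N.factorial * Real.exp (1 / 4)) with hK0
  refine ⟨(∫ t : ℝ, ‖dslope H 1 ((α : ℂ) + t * I) * Complex.Gamma ((α : ℂ) + t * I)‖) /
    (2 * Real.pi) + ‖H 1‖, fun X hX => ?_⟩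
  have hX0 : 0 < X := by linarith
  have hXn : (X : ℂ) ≠ 0 := by exact_mod_cast hX0.ne'
  set P : ℂ → ℂ := fun w => dslope H 1 w * ((X : ℂ) ^ w * Complex.Gamma w) with hP
  have hPd : ∀ z : ℂ, α ≤ z.re → z.re ≤ W → DifferentiableAt ℂ P z := by
    intro z h1 h2
    exact (hgd z h1 h2).mul
      ((differentiableAt_id.const_cpow (Or.inl hXn)).mul (diff_Gamma (by linarith)))
  have hPb : ∀ z : ℂ, α ≤ z.re → z.re ≤ W → 1 ≤ |z.im| →
      ‖P z‖ ≤ X ^ W * K0 * Real.exp (-|z.im|) := by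
    intro z h1 h2 h3
    have h4 := hgb z h1 h2 h3
    have h5 := hCg z h1 h2
    have h6 : ‖(X : ℂ) ^ z‖ ≤ X ^ W := by
      rw [norm_Ypow hX]
      exact Real.rpow_le_rpow_of_exponent_le hX h2
    simp only [hP]
    rw [norm_mul, norm_mul]
    calc ‖dslope H 1 z‖ * (‖(X : ℂ) ^ z‖ * ‖Complex.Gamma z‖) ≤
        ((C + ‖H 1‖) * (1 + |z.im|) ^ N) * (X ^ W * (Cg * Real.exp (-(5 / 4) * |z.im|))) :=
          mul_le_mul h4 (mul_le_mul h6 h5 (norm_nonneg _) (by positivity)) (by positivity)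
            (by positivity)
      _ = X ^ W * ((C + ‖H 1‖) * Cg) * ((1 + |z.im|) ^ N * Real.exp (-(5 / 4) * |z.im|)) := by ring
      _ ≤ X ^ W * ((C + ‖H 1‖) * Cg) *
          ((4 ^ N * N.factorial * Real.exp (1 / 4)) * Real.exp (-|z.im|)) :=
          mul_le_mul_of_nonneg_left (poly_exp N (abs_nonneg _)) (by positivity)
      _ = _ := by rw [hK0]; ring
  have hsh := vert_shift (H := P) (a := α) (b := W) (K := X ^ W * K0) (by linarith) hPd hPb
  have hiP : Integrable (fun t : ℝ => P ((W : ℂ) + t * I)) :=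
    vert_integrable (K := X ^ W * K0) (fun z hz => hPd z (by linarith) hz.le)
      (fun z hz => hPb z (by linarith) hz.le)
  have hiG := XG_int (c := W - 1) (X := X) (by linarith) hX
  have hmain := sum_int (X := X) ha0 (by linarith) hX hs
  have hpt : ∀ t : ℝ, (∑' d : ℕ, a d * (d : ℂ) ^ (-((W : ℂ) + t * I))) *
      ((X : ℂ) ^ ((W : ℂ) + t * I) * Complex.Gamma ((W : ℂ) + t * I)) =
      P ((W : ℂ) + t * I) + H 1 * X * ((X : ℂ) ^ (((W - 1 : ℝ) : ℂ) + t * I) *
        Complex.Gamma (((W - 1 : ℝ) : ℂ) + t * I)) := by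
    intro t
    set w : ℂ := (W : ℂ) + t * I with hw
    have hwre : w.re = W := by rw [hw]; simp
    have hw1 : w ≠ 1 := by
      intro h
      rw [h, Complex.one_re] at hwre
      linarith
    have hw2 : w - 1 ≠ 0 := sub_ne_zero.2 hw1
    have e1 : (((W - 1 : ℝ) : ℂ) + t * I) = w - 1 := by rw [hw]; push_cast; ring
    have e2 : Complex.Gamma w = (w - 1) * Complex.Gamma (w - 1) := by
      rw [← Complex.Gamma_add_one _ hw2, sub_add_cancel]
    have e3 : (X : ℂ) ^ w = X * (X : ℂ) ^ (w - 1) := by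
      rw [Complex.cpow_sub _ _ hXn, Complex.cpow_one]
      field_simp
    have e4 := hD w hwre
    have e5 : (∑' d : ℕ, a d * (d : ℂ) ^ (-w)) = dslope H 1 w + H 1 / (w - 1) := by
      rw [dslope_of_ne _ hw1, slope_def_field, e4, ← add_div, sub_add_cancel,
        mul_div_cancel_left₀ _ hw2]
    rw [e1, e5]
    simp only [hP]
    rw [add_mul]
    congr 1
    rw [e2, e3]
    field_simp
  simp only [hpt] at hmain
  rw [integral_add hiP (hiG.const_mul _), integral_const_mul,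
    mb (ω := 1 / X) (by linarith) (by positivity) (by simp), ← hsh] at hmain
  have hpi : (2 * (Real.pi : ℂ)) ≠ 0 :=
    mul_ne_zero two_ne_zero (by exact_mod_cast Real.pi_pos.ne')
  have hSg : ∑' d : ℕ, a d * ((Real.exp (-(d / X)) : ℝ) : ℂ) - H 1 * X =
      (∫ t : ℝ, P ((α : ℂ) + t * I)) / (2 * Real.pi) +
        H 1 * ((X * (Real.exp (-(1 / X)) - 1) : ℝ) : ℂ) := by
    have h7 : (2 * (Real.pi : ℂ)) * ((∫ t : ℝ, P ((α : ℂ) + t * I)) / (2 * Real.pi)) =
        ∫ t : ℝ, P ((α : ℂ) + t * I) := by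
      rw [mul_comm]
      exact div_mul_cancel₀ _ hpi
    apply mul_left_cancel₀ hpi
    rw [mul_sub, ← hmain, mul_add, h7, Complex.ofReal_mul, Complex.ofReal_sub, Complex.ofReal_one]
    ring
  have hI : ‖∫ t : ℝ, P ((α : ℂ) + t * I)‖ ≤
      X ^ α * ∫ t : ℝ, ‖dslope H 1 ((α : ℂ) + t * I) * Complex.Gamma ((α : ℂ) + t * I)‖ := by
    refine (norm_integral_le_integral_norm _).trans (le_of_eq ?_)
    rw [← integral_const_mul]
    refine integral_congr_ae (Eventually.of_forall fun t => ?_)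
    simp only [hP]
    rw [norm_mul, norm_mul, norm_mul, norm_Ypow hX]
    have e : ((α : ℂ) + t * I).re = α := by simp
    rw [e]
    ring
  have hE : ‖((X * (Real.exp (-(1 / X)) - 1) : ℝ) : ℂ)‖ ≤ X ^ α := by
    have h1 := Real.add_one_le_exp (-(1 / X))
    have h2 : Real.exp (-(1 / X)) ≤ 1 := Real.exp_le_one_iff.2 (by
      have : 0 < 1 / X := by positivity
      linarith)
    have h3 : X * (1 / X) = 1 := by field_simp
    have h4 : (1 : ℝ) ≤ X ^ α := Real.one_le_rpow hX (by linarith)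
    rw [Complex.norm_real, Real.norm_eq_abs, abs_le]
    constructor
    · have h5 : X * (-(1 / X)) ≤ X * (Real.exp (-(1 / X)) - 1) :=
        mul_le_mul_of_nonneg_left (by linarith) hX0.le
      rw [mul_neg, h3] at h5
      linarith
    · have h5 : X * (Real.exp (-(1 / X)) - 1) ≤ 0 :=
        mul_nonpos_of_nonneg_of_nonpos hX0.le (by linarith)
      linarith
  rw [hSg]
  have hn : ‖(2 * (Real.pi : ℂ))‖ = 2 * Real.pi := by
    rw [norm_mul, Complex.norm_real, Real.norm_of_nonneg Real.pi_pos.le]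
    simp
  calc ‖(∫ t : ℝ, P ((α : ℂ) + t * I)) / (2 * Real.pi) +
        H 1 * ((X * (Real.exp (-(1 / X)) - 1) : ℝ) : ℂ)‖ ≤
      ‖(∫ t : ℝ, P ((α : ℂ) + t * I)) / (2 * Real.pi)‖ +
        ‖H 1 * ((X * (Real.exp (-(1 / X)) - 1) : ℝ) : ℂ)‖ := norm_add_le _ _
    _ ≤ (X ^ α * ∫ t : ℝ, ‖dslope H 1 ((α : ℂ) + t * I) * Complex.Gamma ((α : ℂ) + t * I)‖) /
          (2 * Real.pi) + ‖H 1‖ * X ^ α := by
        refine add_le_add ?_ ?_
        · rw [norm_div, hn]
          exact div_le_div_of_nonneg_right hI (by positivity)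
        · rw [norm_mul]
          exact mul_le_mul_of_nonneg_left hE (norm_nonneg _)
    _ = _ := by ring

end Pool.Agent.Run7.h327.MD
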